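import Mathlib

/-!
MP_e17bc1_co: upper irredundance number of the queens graph.
-/

namespace Pool.Agent.Results.MP_e17bc1_co.UpperBound

open Finset Classical

/-- The queens graph on the `n × n` board: two distinct squares are adjacent when they share a row,
a column, a diagonal (constant difference) or an antidiagonal (constant sum). -/
def queens (n : ℕ) : SimpleGraph (Fin n × Fin n) where
  Adj u v := u ≠ v ∧ (u.1 = v.1 ∨ u.2 = v.2 ∨
    ((u.1 : ℕ) : ℤ) - ((u.2 : ℕ) : ℤ) = ((v.1 : ℕ) : ℤ) - ((v.2 : ℕ) : ℤ) ∨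
    (u.1 : ℕ) + (u.2 : ℕ) = (v.1 : ℕ) + (v.2 : ℕ))
  symm := ⟨by
    rintro u v ⟨h, h'⟩
    refine ⟨fun e => h e.symm, ?_⟩
    rcases h' with h' | h' | h' | h'
    · exact Or.inl h'.symm
    · exact Or.inr (Or.inl h'.symm)
    · exact Or.inr (Or.inr (Or.inl h'.symm))
    · exact Or.inr (Or.inr (Or.inr h'.symm))⟩
  loopless := ⟨fun _ h => h.1 rfl⟩

/-- closed neighbourhood -/
def closedNbhd {V : Type*} (G : SimpleGraph V) (v : V) : Set V := {u | u = v ∨ G.Adj v u}

/-- `S` is irredundant: every `v ∈ S` has a private neighbour. -/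
def Irredundant {V : Type*} (G : SimpleGraph V) (S : Finset V) : Prop :=
  ∀ v ∈ S, ∃ u ∈ closedNbhd G v, ∀ w ∈ S, w ≠ v → u ∉ closedNbhd G w

/-- the upper irredundance number -/
noncomputable def IR {V : Type*} [Fintype V] (G : SimpleGraph V) : ℕ :=
  ((univ : Finset (Finset V)).filter (fun S => Irredundant G S)).sup Finset.card

/-- the square `v` lies on the line with label `l` -/
def onLine (n : ℕ) (v : Fin n × Fin n) (l : ℕ) : Prop :=
  l = v.1 ∨ l = n + v.2 ∨ l + v.2 = 3 * n - 1 + v.1 ∨ l = 4 * n - 1 + (v.1 + v.2)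

theorem share (n : ℕ) (u v : Fin n × Fin n) (l : ℕ) (hl : l < 6 * n - 2)
    (hu : onLine n u l) (hv : onLine n v l) : v = u ∨ (queens n).Adj v u := by
  by_cases h : v = u
  · exact Or.inl h
  refine Or.inr ⟨h, ?_⟩
  have h1 := u.1.isLt
  have h2 := u.2.isLt
  have h3 := v.1.isLt
  have h4 := v.2.isLt
  unfold onLine at hu hv
  have key : (v.1 : ℕ) = u.1 ∨ (v.2 : ℕ) = u.2 ∨
    ((v.1 : ℕ) : ℤ) - ((v.2 : ℕ) : ℤ) = ((u.1 : ℕ) : ℤ) - ((u.2 : ℕ) : ℤ) ∨
    (v.1 : ℕ) + (v.2 : ℕ) = (u.1 : ℕ) + (u.2 : ℕ) := by omega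
  rcases key with h | h | h | h
  · exact Or.inl (Fin.ext h)
  · exact Or.inr (Or.inl (Fin.ext h))
  · exact Or.inr (Or.inr (Or.inl h))
  · exact Or.inr (Or.inr (Or.inr h))

theorem line_of_adj (n : ℕ) (u v : Fin n × Fin n) (h : u = v ∨ (queens n).Adj v u) :
    ∃ l, l < 6 * n - 2 ∧ onLine n u l ∧ onLine n v l := by
  have h1 := u.1.isLt
  have h2 := u.2.isLt
  have h3 := v.1.isLt
  have h4 := v.2.isLt
  have key : (v.1 : ℕ) = u.1 ∨ (v.2 : ℕ) = u.2 ∨
    ((v.1 : ℕ) : ℤ) - ((v.2 : ℕ) : ℤ) = ((u.1 : ℕ) : ℤ) - ((u.2 : ℕ) : ℤ) ∨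
    (v.1 : ℕ) + (v.2 : ℕ) = (u.1 : ℕ) + (u.2 : ℕ) := by
    rcases h with h | ⟨_, h | h | h | h⟩
    · left; rw [h]
    · left; rw [h]
    · right; left; rw [h]
    · right; right; left; exact h
    · right; right; right; exact h
  unfold onLine
  rcases key with h | h | h | h
  · exact ⟨u.1, by omega, Or.inl rfl, Or.inl h.symm⟩
  · exact ⟨n + u.2, by omega, Or.inr (Or.inl rfl), Or.inr (Or.inl (by omega))⟩
  · exact ⟨3 * n - 1 + u.1 - u.2, by omega, Or.inr (Or.inr (Or.inl (by omega))),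
      Or.inr (Or.inr (Or.inl (by omega)))⟩
  · exact ⟨4 * n - 1 + (u.1 + u.2), by omega, Or.inr (Or.inr (Or.inr rfl)),
      Or.inr (Or.inr (Or.inr (by omega)))⟩

/-- every irredundant set of queens has at most `6n - 2` members -/
theorem card_le (n : ℕ) (S : Finset (Fin n × Fin n)) (hS : Irredundant (queens n) S) :
    S.card ≤ 6 * n - 2 := by
  have h := Finset.card_le_card_of_forall_subsingleton (s := S) (t := range (6 * n - 2))
    (fun v l => onLine n v l ∧ ∀ w ∈ S, onLine n w l → w = v) (by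
      intro v hv
      obtain ⟨u, hu, hpriv⟩ := hS v hv
      obtain ⟨l, hl, hul, hvl⟩ := line_of_adj n u v hu
      refine ⟨l, Finset.mem_range.mpr hl, hvl, ?_⟩
      intro w hw hwl
      by_contra hne
      apply hpriv w hw hne
      rcases share n u w l hl hul hwl with h | h
      · exact Or.inl h.symm
      · exact Or.inr h) (by
      intro l hl v hv w hw
      exact hw.2.2 v hv.1 hv.2.1)
  rwa [Finset.card_range] at h

/-- **Main result.**  `IR(Q_n) ≤ 6n - 2` for all `n ≥ 1`; in particular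
`IR(Q_n) ≤ 6n + C n^{2/3}` with an absolute constant `C`. -/
theorem result :
    (∀ n : ℕ, 1 ≤ n → IR (queens n) + 2 ≤ 6 * n) ∧
    ∃ C : ℝ, ∀ n : ℕ, 1 ≤ n → (IR (queens n) : ℝ) ≤ 6 * n + C * (n : ℝ) ^ ((2 : ℝ) / 3) := by
  have h1 : ∀ n : ℕ, 1 ≤ n → IR (queens n) + 2 ≤ 6 * n := by
    intro n hn
    have : IR (queens n) ≤ 6 * n - 2 := by
      unfold IR
      apply Finset.sup_le
      intro S hS
      exact card_le n S (Finset.mem_filter.mp hS).2
    omega
  refine ⟨h1, 0, ?_⟩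
  intro n hn
  have := h1 n hn
  have h2 : ((IR (queens n) + 2 : ℕ) : ℝ) ≤ ((6 * n : ℕ) : ℝ) := by exact_mod_cast this
  push_cast at h2
  linarith

end Pool.Agent.Results.MP_e17bc1_co.UpperBound
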